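import Pool.Agent.Helper8.LV.Defs

/-!
# CO: forms depending polynomially on moving forms, definitions

`F_i = F0_i(X, H_t : bl t = i)`: the coefficients of the `H_t` move, `F0_i` has coefficients
in `k`, and `p t` are the coefficients of `dF0_i/dY_t (X, H)`.
-/

set_option autoImplicit false

namespace Pool.Agent.Helper6.CO

open scoped BigOperators
open Pool.Agent.Helper8.LG

section

variable {E : Type*} [Field E] {σ ι κ P τ : Type*}

/-- The chain rule: `(D_s F_i)(x) = ∑_(bl t = i) m_t(x) (D_s H_t)(x)`; here `a i`, `p t`, `h t`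
are the coefficients of `F_i`, `m_t`, `H_t`. -/
structure Mov [Fintype σ] [DecidableEq σ] [Fintype κ] [DecidableEq ι] (bl : κ → ι) (d : ι → ℕ)
    (b q : κ → ℕ) (a : (i : ι) → Sym σ (d i) → E) (p : (t : κ) → Sym σ (b t) → E)
    (h : (t : κ) → Sym σ (q t) → E) (D : P → Derivation ℤ E E) : Prop where
  deg : ∀ t, d (bl t) = b t + q t
  der : ∀ (s : P) (i : ι) (x : σ → E), ∑ J, D s (a i J) * mon x J =
    ∑ t, if bl t = i then form (p t) x * ∑ J, D s (h t J) * mon x J else 0

/-- The coefficients `a i J` of `F_i` are polynomials `Q i J` over `k` in the coefficients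
`h t J` of the `H_t`, and the partial derivatives of `F_i` with respect to the coefficients
of `H_t` are the products of the monomials with `m_t`. -/
structure Fam (k : Type*) [Field k] [Algebra k E] [Fintype σ] [DecidableEq σ] [Fintype κ]
    [DecidableEq ι] (bl : κ → ι) (d : ι → ℕ)
    (b q : κ → ℕ) (a : (i : ι) → Sym σ (d i) → E) (p : (t : κ) → Sym σ (b t) → E)
    (h : (t : κ) → Sym σ (q t) → E)
    (Q : (i : ι) → Sym σ (d i) → MvPolynomial (Ix σ q) k) : Prop where
  deg : ∀ t, d (bl t) = b t + q t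
  eq : ∀ i J, MvPolynomial.aeval (fun s : Ix σ q => h s.1 s.2) (Q i J) = a i J
  der : ∀ i J (s : Ix σ q),
    MvPolynomial.aeval (fun s : Ix σ q => h s.1 s.2) (MvPolynomial.pderiv s (Q i J)) =
      if bl s.1 = i then
        ∑ J' : Sym σ (b s.1),
          if (J' : Multiset σ) + (s.2 : Multiset σ) = (J : Multiset σ) then p s.1 J' else 0
      else 0

/-- `q'_i = min(d_i, 2 q_i + 1)` for the forms whose `m_t` have no common zero, `q_i` for
the others -/
def qm [DecidableEq ι] (Y : Finset ι) (d q : ι → ℕ) (i : ι) : ℕ :=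
  if i ∈ Y then min (d i) (2 * q i + 1) else q i

/-- At the valuation ring `O`, for every `i ∈ Y` some `m_t`, `bl t = i`, is not small at
`O`-primitive coordinates of the point `x`. -/
def Nul [Fintype σ] [DecidableEq σ] (bl : κ → ι) {b : κ → ℕ} (p : (t : κ) → Sym σ (b t) → E)
    (Y : Finset ι) (O : ValuationSubring E) (Δ : E) (x : σ → E) : Prop :=
  ∀ i ∈ Y, ∀ j, x j ≠ 0 → (∀ l, x l / x j ∈ O) → ∃ t, bl t = i ∧
    form (p t) (fun l => x l / x j) ≠ 0 ∧ Δ * (form (p t) fun l => x l / x j)⁻¹ ∈ O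

/-- The conclusion of the key lemma: `G x_l` is integral up to a power of `Δ` at all valuation
rings where `Δ` bounds the derivations, the corrections, the rows and the `m_t`. -/
def KeyC [Fintype σ] [DecidableEq σ] [Fintype ι] [Fintype τ] (bl : κ → ι) (d e : ι → ℕ)
    {b : κ → ℕ} (a : (i : ι) → Sym σ (d i) → E) (p : (t : κ) → Sym σ (b t) → E)
    (D : P → Derivation ℤ E E) (θ : τ → P → E) (Z Y : Finset ι) (u : ι → E) (x : σ → E)
    (G : E) : Prop :=
  ∀ (O : ValuationSubring E) (Δ : E), Bdd D Δ O → (∀ j s, Δ * θ j s ∈ O) →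
      (∀ i ∉ Z, RowBdd D Δ O x (form (a i)) (u i) (e i)) → Nul bl p Y O Δ x →
      ∀ l, Δ ^ (2 * (Fintype.card σ + Fintype.card ι + Fintype.card τ)) * (G * x l) ∈ O

/-- The numerical hypotheses: `Z` and `C` are disjoint, `d_i > 0`, `0 < q_i ≤ deg H_t`,
`d_i = m_i e_i` for `i ∈ C`, `e_i = 0` for `i ∉ C`, and
`∑ q'_i + |Z| - ∑ e_i ≥ 2 w + 2 + c`. -/
structure NumC [Fintype ι] [DecidableEq ι] (bl : κ → ι) (q : κ → ℕ) (d q₀ e m : ι → ℕ)
    (Z C Y : Finset ι) (w c : ℕ) : Prop where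
  pos : ∀ i, 0 < d i
  posq : ∀ i, 0 < q₀ i
  le : ∀ t, q₀ (bl t) ≤ q t
  disj : ∀ i ∈ C, i ∉ Z
  deg : ∀ i ∈ C, d i = m i * e i
  e0 : ∀ i ∉ C, e i = 0
  ineq : 2 * w + 2 + c + ∑ i, e i ≤ ∑ i, qm Y d q₀ i + Z.card

end

end Pool.Agent.Helper6.CO
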