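import Pool.Agent.Helper6.CO.KeyLin
import Pool.Agent.Helper74.LG.KeyAux

/-! # CO-KEY: the determinant estimate -/

set_option autoImplicit false

namespace Pool.Agent.Helper6.CO

open scoped BigOperators

theorem det_est {E R J : Type*} [Field E] [Fintype J] [DecidableEq J] (O : ValuationSubring E)
    (Δ c : E) (hc : c ≠ 0) (hci : c⁻¹ ∈ O) (hΔ : Δ ∈ O) (ρ : J → R) (uw wt rf : R → E)
    (ee : R → ℕ) (hdecomp : ∀ s, uw s = c ^ ee s * wt s) (K Kt : J → R → E) (rk : J → ℕ)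
    (g : J → E) (nl : ℕ) (hrf : ∏ s, rf (ρ s) = c ^ nl)
    (hT : ∀ t, ∃ τ : J → E, (∀ r, K t r = ∑ t', τ t' * (rf r * Kt t' r)) ∧ τ t = g t ∧
      ∀ t', t' ≠ t → rk t ≤ rk t' → τ t' = 0)
    (M nb m : ℕ) (hg : (∏ t, g t) * (c * c ^ M) = c ^ nb)
    (hm : 1 + M = (∑ s, ee (ρ s) + nl + nb) + 1 + m)
    (hent : ∀ s t, Δ ^ 2 * (wt (ρ s) * Kt t (ρ s)) ∈ O) (k' n : ℕ)
    (hk : n = Fintype.card J + k') (y : E) (hy : y / c ∈ O) :
    Δ ^ (2 * n) * (Matrix.det (Matrix.of fun s t => uw (ρ s) * K t (ρ s)) * y) ∈ O := by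
  choose τ hτ1 hτ2 hτ3 using hT
  set N : Matrix J J E := Matrix.of fun s t => wt (ρ s) * Kt t (ρ s) with hN
  set T : Matrix J J E := Matrix.of fun t' t => τ t t' with hT
  have hTdet : T.det = ∏ t, g t :=
    Helper74.LG.det_tri T rk _ (fun t => hτ2 t) fun t' t h1 h2 => hτ3 t t' h1 h2
  have hmat : (Matrix.of fun s t => uw (ρ s) * K t (ρ s)) =
      (Matrix.of fun s t' => (c ^ ee (ρ s) * rf (ρ s)) * N s t') * T := by
    ext s t
    rw [Matrix.mul_apply, Matrix.of_apply, hτ1 t, Finset.mul_sum]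
    refine Finset.sum_congr rfl fun t' _ => ?_
    rw [hdecomp]
    simp only [hN, hT, Matrix.of_apply]
    ring
  have hdet : Matrix.det (Matrix.of fun s t => uw (ρ s) * K t (ρ s)) *
      (c * c ^ M) = c ^ (∑ s, ee (ρ s) + nl + nb) * N.det := by
    rw [hmat, Matrix.det_mul, Matrix.det_mul_column, hTdet, mul_assoc, hg,
      Finset.prod_mul_distrib, Finset.prod_pow_eq_pow_sum, hrf]
    ring
  set G := Matrix.det (Matrix.of fun s t => uw (ρ s) * K t (ρ s)) with hG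
  have hG2 : G * c ^ (m + 1) = N.det := by
    have h1 : c * c ^ M = c ^ (∑ s, ee (ρ s) + nl + nb) * c ^ (m + 1) := by
      rw [← pow_succ', ← pow_add]
      congr 1
      omega
    rw [h1] at hdet
    have h2 : c ^ (∑ s, ee (ρ s) + nl + nb) ≠ 0 := pow_ne_zero _ hc
    apply mul_left_cancel₀ h2
    rw [← hdet]
    ring
  have hNdet : (Δ ^ 2) ^ Fintype.card J * N.det ∈ O := by
    rw [← Matrix.det_smul]
    refine Helper74.LG.det_mem O.toSubring _ fun s t => ?_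
    rw [Matrix.smul_apply, smul_eq_mul]
    exact hent s t
  have hfin : Δ ^ (2 * n) * (G * y) =
      (Δ ^ 2) ^ k' * (c⁻¹ ^ m * (y / c)) * ((Δ ^ 2) ^ Fintype.card J * N.det) := by
    have h1 : c⁻¹ ^ m * c ^ (m + 1) = c := by
      rw [pow_succ, ← mul_assoc, ← mul_pow, inv_mul_cancel₀ hc, one_pow, one_mul]
    have h2 : y / c * c = y := div_mul_cancel₀ _ hc
    rw [hk, pow_mul, pow_add, ← hG2]
    calc (Δ ^ 2) ^ Fintype.card J * (Δ ^ 2) ^ k' * (G * y)
        = (Δ ^ 2) ^ Fintype.card J * (Δ ^ 2) ^ k' *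
            (G * (y / c * (c⁻¹ ^ m * c ^ (m + 1)))) := by
          rw [h1, h2]
      _ = _ := by ring
  rw [hfin]
  exact mul_mem (mul_mem (pow_mem (pow_mem hΔ _) _) (mul_mem (pow_mem hci _) hy)) hNdet

end Pool.Agent.Helper6.CO
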