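import Pool.Agent.Helper6.CO.KeyTrans
import Pool.Agent.Helper6.CO.KeyDet

/-! # CO: the key lemma -/

set_option autoImplicit false

namespace Pool.Agent.Helper6.CO

open Pool.Agent.Helper8.LG

open scoped BigOperators

section

variable {E : Type*} [Field E] {σ ι κ Tt : Type*} [Fintype σ] [DecidableEq σ] [DecidableEq ι]
  {n : κ → ℕ} {d : ι → ℕ} {a : (i : ι) → Sym σ (d i) → E}
  {D : Ix σ (fun t => n t + 1) → Derivation ℤ E E}
  {θ : Tt → Ix σ (fun t => n t + 1) → E} {Z : Finset ι} {x : σ → E}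

/-- the weights of the rows -/
private def wt (u : ι → E) (e : ι → ℕ) (c : E) : (σ ⊕ ι) ⊕ Tt → E :=
  Sum.elim (Sum.elim (fun _ => 1) fun i => u i / c ^ e i) fun _ => 1

private theorem entry_mem (b : Set (Option (Σ t : κ, Sym σ (n t) × σ × σ))) (S : Set κ)
    (u : ι → E) (e : ι → ℕ) (c : E) (j₀ : σ) (g : κ → E) (f : κ → κ)
    (O : ValuationSubring E) (Δ : E) (hg : ∀ t : S, Δ * g t ∈ O)
    (xt : σ → E) (hxt : ∀ l, xt l ∈ O) (hD : Bdd D Δ O) (hθ : ∀ j s, Δ * θ j s ∈ O)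
    (r : (σ ⊕ ι) ⊕ Tt)
    (hr : ∀ i, r = Sum.inl (Sum.inr i) → i ∉ Z ∧ Δ * (u i / c ^ e i) ∈ O ∧
      ∀ p, Δ * (u i / c ^ e i * (D p (form (a i) xt) / form (a i) xt)) ∈ O) (t : b ⊕ S) :
    Δ ^ 2 * (wt u e c r * colK n a D θ Z b S xt j₀ g f t r) ∈ O := by
  have h1 : Δ * (wt u e c r * eul d Z xt r) ∈ O := by
    rcases r with (l | i) | j
    · simp only [wt, eul, Sum.elim_inl, one_mul]
      exact mul_mem hD.1 (hxt l)
    · obtain ⟨h2, h3, _⟩ := hr i rfl
      simp only [wt, eul, Sum.elim_inl, Sum.elim_inr, if_neg h2]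
      rw [← mul_assoc]
      exact mul_mem h3 (natCast_mem O _)
    · simp only [wt, eul, Sum.elim_inr, mul_zero]
      exact zero_mem O
  have h2 : ∀ p, Δ * (wt u e c r * cv n a D θ Z xt p r) ∈ O := by
    intro p
    rcases r with (l | i) | j
    · simp only [wt, cv, Sum.elim_inl, one_mul]
      exact hD.2 p _ (hxt l)
    · obtain ⟨h2, _, h3⟩ := hr i rfl
      simp only [wt, cv, Sum.elim_inl, Sum.elim_inr, if_neg h2]
      exact h3 p
    · simp only [wt, cv, Sum.elim_inr, one_mul]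
      exact hθ j p
  rcases t with ⟨o, ho⟩ | t
  · rw [pow_two, mul_assoc]
    refine mul_mem hD.1 ?_
    rcases o with _ | s
    · exact h1
    · have h3 : colK n a D θ Z b S xt j₀ g f (Sum.inl ⟨some s, ho⟩) r =
          xt s.2.2.1 * cv n a D θ Z xt ⟨s.1, s.2.2.2 ::ₛ s.2.1⟩ r -
            xt s.2.2.2 * cv n a D θ Z xt ⟨s.1, s.2.2.1 ::ₛ s.2.1⟩ r := rfl
      have h4 := sub_mem (mul_mem (hxt s.2.2.1) (h2 ⟨s.1, s.2.2.2 ::ₛ s.2.1⟩))
        (mul_mem (hxt s.2.2.2) (h2 ⟨s.1, s.2.2.1 ::ₛ s.2.1⟩))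
      rw [h3]
      have h5 : Δ * (wt u e c r * (xt s.2.2.1 * cv n a D θ Z xt ⟨s.1, s.2.2.2 ::ₛ s.2.1⟩ r -
            xt s.2.2.2 * cv n a D θ Z xt ⟨s.1, s.2.2.1 ::ₛ s.2.1⟩ r)) =
          xt s.2.2.1 * (Δ * (wt u e c r * cv n a D θ Z xt ⟨s.1, s.2.2.2 ::ₛ s.2.1⟩ r)) -
            xt s.2.2.2 * (Δ * (wt u e c r * cv n a D θ Z xt ⟨s.1, s.2.2.1 ::ₛ s.2.1⟩ r)) := by
        ring
      rw [h5]
      exact h4
  · have h3 : colK n a D θ Z b S xt j₀ g f (Sum.inr t) r =
        g t * cv n a D θ Z xt ⟨f t, Sym.replicate (n (f t) + 1) j₀⟩ r := rfl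
    rw [h3]
    have h4 : Δ ^ 2 * (wt u e c r *
        (g t * cv n a D θ Z xt ⟨f t, Sym.replicate (n (f t) + 1) j₀⟩ r)) =
        (Δ * g t) * (Δ * (wt u e c r *
          cv n a D θ Z xt ⟨f t, Sym.replicate (n (f t) + 1) j₀⟩ r)) := by ring
    rw [h4]
    exact mul_mem (hg t) (h2 _)

end

/-- counting the columns -/
private theorem count {κ ι : Type*} [Fintype ι] [DecidableEq ι] (S : Set κ) [Fintype S]
    (bl : κ → ι) (d q₀ : ι → ℕ) (q : κ → ℕ) (hq : ∀ t, q₀ (bl t) ≤ q t) (Y : Finset ι)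
    (hS : ∀ i, ∃ t ∈ S, bl t = i) (sp : ι → Prop) [DecidablePred sp]
    (hsp : ∀ i, sp i ↔ i ∈ Y ∧ ∀ s ∈ S, ∀ t ∈ S, bl s = i → bl t = i → s = t) :
    ∑ i, qm Y d q₀ i + Fintype.card ι ≤
      ∑ t : S, (if sp (bl t) then d (bl t) else q t) + Fintype.card S := by
  classical
  have h1 : ∑ i, qm Y d q₀ i + Fintype.card ι = ∑ i, (qm Y d q₀ i + 1) := by
    rw [Finset.sum_add_distrib]
    simp
  have h2 : ∑ t : S, (if sp (bl t) then d (bl t) else q t) + Fintype.card S =
      ∑ t : S, ((if sp (bl t) then d (bl t) else q t) + 1) := by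
    rw [Finset.sum_add_distrib]
    simp
  rw [h1, h2, ← Finset.sum_fiberwise_of_maps_to (s := Finset.univ (α := S))
    (t := Finset.univ (α := ι)) (g := fun t : S => bl t) (fun _ _ => Finset.mem_univ _)]
  refine Finset.sum_le_sum fun i _ => ?_
  obtain ⟨t, ht, hti⟩ := hS i
  have htm : (⟨t, ht⟩ : S) ∈ Finset.univ.filter fun t : S => bl t = i :=
    Finset.mem_filter.2 ⟨Finset.mem_univ _, hti⟩
  by_cases hi : sp i
  · have h3 := Finset.single_le_sum (f := fun t : S => (if sp (bl t) then d (bl t) else q t) + 1)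
      (fun _ _ => Nat.zero_le _) htm
    refine le_trans ?_ h3
    simp only [hti, if_pos hi]
    rw [qm, if_pos ((hsp i).1 hi).1]
    exact Nat.add_le_add_right (min_le_left _ _) 1
  · by_cases hY : i ∈ Y
    · have h4 : ¬ ∀ s ∈ S, ∀ t ∈ S, bl s = i → bl t = i → s = t := fun h => hi ((hsp i).2 ⟨hY, h⟩)
      push Not at h4
      obtain ⟨s, hs, t', ht', hsi, hti', hst⟩ := h4
      have h5 : ({⟨s, hs⟩, ⟨t', ht'⟩} : Finset S) ⊆ Finset.univ.filter fun t : S => bl t = i := by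
        intro y hy
        rw [Finset.mem_insert, Finset.mem_singleton] at hy
        rcases hy with rfl | rfl
        · exact Finset.mem_filter.2 ⟨Finset.mem_univ _, hsi⟩
        · exact Finset.mem_filter.2 ⟨Finset.mem_univ _, hti'⟩
      have h6 := Finset.sum_le_sum_of_subset (f := fun t : S =>
        (if sp (bl t) then d (bl t) else q t) + 1) h5
      refine le_trans ?_ h6
      rw [Finset.sum_pair (fun h => hst (congrArg Subtype.val h))]
      simp only [hsi, hti', if_neg hi]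
      rw [qm, if_pos hY]
      have h7 := hq s
      have h8 := hq t'
      rw [hsi] at h7
      rw [hti'] at h8
      have h9 := min_le_right (d i) (2 * q₀ i + 1)
      omega
    · have h3 := Finset.single_le_sum
        (f := fun t : S => (if sp (bl t) then d (bl t) else q t) + 1)
        (fun _ _ => Nat.zero_le _) htm
      refine le_trans ?_ h3
      simp only [hti, if_neg hi]
      rw [qm, if_neg hY]
      have h7 := hq t
      rw [hti] at h7
      omega

private theorem key_aux {E : Type*} [Field E] {σ ι κ Tt : Type*} [Fintype σ] [DecidableEq σ]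
    [Fintype ι] [DecidableEq ι] [Fintype κ] [DecidableEq κ] [Fintype Tt] (bl : κ → ι)
    (d e q₀ : ι → ℕ) (bb n : κ → ℕ) (hq₀ : ∀ t, q₀ (bl t) ≤ n t + 1)
    (a : (i : ι) → Sym σ (d i) → E) (p : (t : κ) → Sym σ (bb t) → E)
    (h : (t : κ) → Sym σ (n t + 1) → E) (D : Ix σ (fun t => n t + 1) → Derivation ℤ E E)
    (jj : Tt → Ix σ (fun t => n t + 1)) (θ : Tt → Ix σ (fun t => n t + 1) → E)
    (hD : Dual (fun t => n t + 1) h D jj θ)
    (hM : Mov bl d bb (fun t => n t + 1) a p h D)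
    (Z Y : Finset ι) (x : σ → E) (i₀ : σ) (hx : x i₀ = 1)
    (hZ : ∀ i ∈ Z, form (a i) x = 0) (hU : ∀ i ∉ Z, form (a i) x ≠ 0)
    (hP : ∀ i, ∃ t, bl t = i ∧ form (p t) x ≠ 0)
    (u : ι → E) (hu : ∀ i ∉ Z, u i ≠ 0)
    (w : ℕ) (hw : 2 * w + 2 + Fintype.card Tt + ∑ i, e i ≤ ∑ i, qm Y d q₀ i + Z.card)
    (hm : MinorsVanish D x w) :
    ∃ G : E, G ≠ 0 ∧ KeyC bl d e a p D θ Z Y u x G := by
  classical
  have heul : (eul d Z x : (σ ⊕ ι) ⊕ Tt → E) ≠ 0 := by
    intro h
    have h1 := congrFun h (Sum.inl (Sum.inl i₀))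
    simp only [eul, Sum.elim_inl, Pi.zero_apply, hx] at h1
    exact one_ne_zero h1
  obtain ⟨b, hb0, hbli, hbsp⟩ := Helper74.LG.exists_basis_part (E := E) (eul d Z x) heul
    (syz n a D θ Z x)
  have : Fintype b := Fintype.ofFinite b
  have hbli' : LinearIndependent E fun o : b => colF n a D θ Z x o.1 := hbli
  set V₀ : Submodule E ((σ ⊕ ι) ⊕ Tt → E) :=
    Submodule.span E (Set.range fun o : b => colF n a D θ Z x (o : Option _)) with hV₀
  obtain ⟨r, S, hF1, hF2, hF3, hrinj'⟩ := exists_flag (E := E) bl V₀ (colR n a D θ Z x i₀)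
  have : Fintype S := Fintype.ofFinite S
  -- the functionals
  obtain ⟨lam, hl1, hl2, hl3⟩ := exists_functional bl n a p h D jj θ hD hM Z x hZ hU
  have hV : ∀ v ∈ V₀, lam v = 0 := by
    have h2 : V₀ ≤ LinearMap.ker lam := by
      rw [hV₀, Submodule.span_le]
      rintro _ ⟨⟨o, ho⟩, rfl⟩
      rcases o with _ | s
      · exact hl1
      · exact hl3 s
    exact fun v hv => h2 hv
  have hC : ∀ t, lam (colR n a D θ Z x i₀ t) = Pi.single (bl t) (-(form (p t) x)) := by
    intro t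
    rw [colR, hl2, mon_rep, hx, one_pow, mul_one]
  -- every block has a column
  have hlow : ∀ i v, v ∈ V₀ ⊔ Submodule.span E
      (colR n a D θ Z x i₀ '' {s | s ∈ S ∧ bl s ≠ i}) → lam v i = 0 := by
    intro i v hv
    have h3 : V₀ ⊔ Submodule.span E (colR n a D θ Z x i₀ '' {s | s ∈ S ∧ bl s ≠ i}) ≤
        LinearMap.ker ((LinearMap.proj i : (ι → E) →ₗ[E] E).comp lam) := by
      refine sup_le ?_ ?_
      · intro v hv
        rw [LinearMap.mem_ker, LinearMap.comp_apply, hV v hv]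
        rfl
      · rw [Submodule.span_le]
        rintro _ ⟨s, ⟨_, hs⟩, rfl⟩
        rw [SetLike.mem_coe, LinearMap.mem_ker, LinearMap.comp_apply, LinearMap.proj_apply, hC,
          Pi.single_eq_of_ne hs.symm]
    exact h3 hv
  have hSne : ∀ i, ∃ t ∈ S, bl t = i := by
    intro i
    by_contra hcon
    push Not at hcon
    obtain ⟨t, hti, htp⟩ := hP i
    have h1 : V₀ ⊔ Submodule.span E (colR n a D θ Z x i₀ '' {s | s ∈ S ∧ r s ≤ r t}) ≤
        V₀ ⊔ Submodule.span E (colR n a D θ Z x i₀ '' {s | s ∈ S ∧ bl s ≠ i}) :=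
      sup_le_sup_left (Submodule.span_mono (Set.image_mono fun s hs =>
        (⟨hs.1, hcon s hs.1⟩ : s ∈ S ∧ bl s ≠ i))) V₀
    have h2 := hlow i _ (h1 (hF2 t))
    rw [hC, hti, Pi.single_eq_same, neg_eq_zero] at h2
    exact htp h2
  -- the special blocks
  let sp : ι → Prop := fun i => i ∈ Y ∧ ∀ s ∈ S, ∀ t ∈ S, bl s = i → bl t = i → s = t
  have hone : ∀ t ∈ S, sp (bl t) → ∀ s ∈ S, bl s = bl t → s = t :=
    fun t ht hsp s hs hst => hsp.2 s hs t ht hst rfl
  have hne : ∀ t ∈ S, sp (bl t) → form (p t) x ≠ 0 := by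
    intro t ht hsp
    obtain ⟨t₁, ht₁, htp⟩ := hP (bl t)
    obtain ⟨cc, v, w, _, _, _, h2⟩ := flag_one bl _ (colR n a D θ Z x i₀) r S hF2 hF3 lam
      (fun t => form (p t) x) hV hC t (fun s hs hst => hone t ht hsp s hs hst) t₁ ht₁
    intro h0
    apply htp
    rw [h2, h0, mul_zero]
  set g : κ → E := fun t => if sp (bl t) then (form (p t) x)⁻¹ else 1 with hg
  have hg0 : ∀ t ∈ S, g t ≠ 0 := by
    intro t ht
    rw [hg]
    by_cases hsp : sp (bl t)
    · simp only [if_pos hsp]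
      exact inv_ne_zero (hne t ht hsp)
    · simp only [if_neg hsp]
      exact one_ne_zero
  set K := colK n a D θ Z b S x i₀ g id with hKdef
  have hK : LinearIndependent E K :=
    li_sum (fun o : b => colF n a D θ Z x o.1) (colR n a D θ Z x i₀) S g hg0 hbli' hF1
  obtain ⟨ρ, hrinj, hrdet⟩ := exists_minor _ hK
  have hrZ : ∀ s i, ρ s = Sum.inl (Sum.inr i) → i ∉ Z := by
    intro s i hs hi
    apply hrdet
    refine Matrix.det_eq_zero_of_row_eq_zero s fun t => ?_
    rw [Matrix.of_apply, hs]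
    exact colK_zero b S i₀ g id t hi
  set uw : (σ ⊕ ι) ⊕ Tt → E := Sum.elim (Sum.elim (fun _ => 1) u) (fun _ => 1) with huw
  set ee : (σ ⊕ ι) ⊕ Tt → ℕ := Sum.elim (Sum.elim (fun _ => 0) e) (fun _ => 0) with hee
  set isx : (σ ⊕ ι) ⊕ Tt → Bool :=
    Sum.elim (Sum.elim (fun _ => true) (fun _ => false)) (fun _ => false) with hisx
  -- counting
  set lft : Finset (b ⊕ S) := Finset.univ.filter fun s => isx (ρ s) = true with hlft
  set rgt : Finset (b ⊕ S) := Finset.univ.filter fun s => ¬ isx (ρ s) = true with hrgt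
  have hn' : lft.card ≤ w + 1 := by
    refine left_rows_le (col D x) w hm (fun t l => K t (Sum.inl (Sum.inl l)))
      (colK_span b S i₀ g id) _ hrdet lft
      (fun s => Sum.elim (Sum.elim id (fun _ => i₀)) (fun _ => i₀) (ρ s)) ?_
    intro s hs t
    rw [hlft, Finset.mem_filter] at hs
    rcases h : ρ s with (l | i) | j
    · simp [h]
    · rw [h] at hs
      simp [hisx] at hs
    · rw [h] at hs
      simp [hisx] at hs
  have hq' : rgt.card + Z.card ≤ Fintype.card ι + Fintype.card Tt := by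
    have h1 : rgt.image ρ ⊆ ((Finset.univ \ Z).map ⟨fun i => Sum.inl (Sum.inr i),
          Sum.inl_injective.comp Sum.inr_injective⟩) ∪
        (Finset.univ : Finset Tt).map ⟨Sum.inr, Sum.inr_injective⟩ := by
      intro y hy
      rw [Finset.mem_image] at hy
      obtain ⟨s, hs, rfl⟩ := hy
      rw [hrgt, Finset.mem_filter] at hs
      rw [Finset.mem_union]
      rcases h : ρ s with (l | i) | j
      · rw [h] at hs
        simp [hisx] at hs
      · left
        rw [Finset.mem_map]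
        exact ⟨i, Finset.mem_sdiff.2 ⟨Finset.mem_univ i, hrZ s i h⟩, rfl⟩
      · right
        rw [Finset.mem_map]
        exact ⟨j, Finset.mem_univ j, rfl⟩
    have h2 := (Finset.card_le_card h1).trans (Finset.card_union_le _ _)
    rw [Finset.card_image_of_injective _ hrinj, Finset.card_map, Finset.card_map,
      Finset.card_sdiff_of_subset (Finset.subset_univ Z), Finset.card_univ,
      Finset.card_univ] at h2
    have h3 : Z.card ≤ Fintype.card ι := Finset.card_le_univ Z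
    omega
  have hcard : Fintype.card b + Fintype.card S = lft.card + rgt.card := by
    rw [← Fintype.card_sum, ← Finset.card_univ (α := b ⊕ S)]
    exact (Finset.card_filter_add_card_filter_not _).symm
  have hesum : ∑ s, ee (ρ s) ≤ ∑ i, e i := by
    calc ∑ s, ee (ρ s) = ∑ y ∈ Finset.univ.image ρ, ee y :=
          (Finset.sum_image fun _ _ _ _ h => hrinj h).symm
      _ ≤ ∑ y, ee y := Finset.sum_le_sum_of_subset (Finset.subset_univ _)
      _ = ∑ i, e i := by
          rw [Fintype.sum_sum_type, Fintype.sum_sum_type]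
          simp [hee]
  set Q : κ → ℕ := fun t => if sp (bl t) then d (bl t) else n t + 1 with hQ
  have hcount : ∑ i, qm Y d q₀ i + Fintype.card ι ≤ ∑ t : S, Q t + Fintype.card S :=
    count S bl d q₀ (fun t => n t + 1) hq₀ Y hSne sp fun i => Iff.rfl
  obtain ⟨m, hmP⟩ : ∃ m, 1 + ∑ t : S, Q t = (∑ s, ee (ρ s) + lft.card + Fintype.card b) + 1 + m :=
    Nat.exists_eq_add_of_le (by omega)
  obtain ⟨k', hk'⟩ : ∃ k', Fintype.card σ + Fintype.card ι + Fintype.card Tt =
      Fintype.card (b ⊕ S) + k' := by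
    apply Nat.exists_eq_add_of_le
    rw [← Fintype.card_sum, ← Fintype.card_sum]
    exact Fintype.card_le_of_injective ρ hrinj
  refine ⟨Matrix.det (Matrix.of fun s t => uw (ρ s) * K t (ρ s)), ?_, ?_⟩
  · have h1 := Matrix.det_mul_column (fun s => uw (ρ s)) (Matrix.of fun s t => K t (ρ s))
    simp only [Matrix.of_apply] at h1
    rw [h1]
    refine mul_ne_zero (Finset.prod_ne_zero_iff.2 fun s _ => ?_) hrdet
    rcases h : ρ s with (l | i) | j
    · rw [huw]
      simp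
    · rw [huw]
      simpa using hu i (hrZ s i h)
    · rw [huw]
      simp
  · intro O Δ hO hθ hrow hnul l
    obtain ⟨j₀, hj, hjO⟩ := Helper74.LG.exists_max_coord O x i₀ (by
      rw [hx]
      exact one_ne_zero)
    have hf' : ∀ i, ∃ t, sp i → bl t = i ∧ form (p t) (fun l => x l / x j₀) ≠ 0 ∧
        Δ * (form (p t) fun l => x l / x j₀)⁻¹ ∈ O := by
      intro i
      by_cases hsp : sp i
      · obtain ⟨t, ht⟩ := hnul i hsp.1 j₀ hj hjO
        exact ⟨t, fun _ => ht⟩
      · obtain ⟨t, _, _⟩ := hSne i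
        exact ⟨t, fun h => absurd h hsp⟩
    choose f hf using hf'
    have hci : (x j₀)⁻¹ ∈ O := by
      have h1 := hjO i₀
      rwa [hx, one_div] at h1
    have hgO : ∀ t : S, Δ * (if sp (bl t) then (form (p (f (bl t))) fun l => x l / x j₀)⁻¹
        else 1) ∈ O := by
      intro t
      by_cases hsp : sp (bl t)
      · rw [if_pos hsp]
        exact (hf (bl t) hsp).2.2
      · rw [if_neg hsp, mul_one]
        exact hO.1
    refine det_est O Δ (x j₀) hj hci hO.1 ρ uw (wt u e (x j₀))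
      (Sum.elim (Sum.elim (fun _ => x j₀) (fun _ => 1)) (fun _ => 1)) ee ?_ K
      (colK n a D θ Z b S (fun l => x l / x j₀) j₀
          (fun t => if sp (bl t) then (form (p (f (bl t))) fun l => x l / x j₀)⁻¹ else 1)
          (fun t => if sp (bl t) then f (bl t) else t)) (rkK b S r)
      (gK b S Q (x j₀)) lft.card ?_ ?_ (∑ t : S, Q t) (Fintype.card b) m
      (prod_gK b S hb0 Q (x j₀) hj) hmP ?_ k' _ hk' (x l) (hjO l)
    · rintro ((s | i) | j)
      · simp [huw, hee, wt]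
      · have h1 : x j₀ ^ e i ≠ 0 := pow_ne_zero _ hj
        simp only [huw, hee, wt, Sum.elim_inl, Sum.elim_inr]
        field_simp
      · simp [huw, hee, wt]
    · rw [hlft, ← Finset.prod_const, Finset.prod_filter]
      refine Finset.prod_congr rfl fun s _ => ?_
      rcases h : ρ s with (l | i) | j <;> simp [hisx]
    · intro t
      have h1 := trans_mem bl p hM.deg b hb0 hbsp hU i₀ hx j₀ hj r S hF2 hF3 lam hV hC sp hone hne
        f (fun i hi => ⟨(hf i hi).1, (hf i hi).2.1⟩) t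
      obtain ⟨F, hF0, hFs⟩ := exists_coef _ _ h1
      refine ⟨F + Pi.single t (gK b S Q (x j₀) t), ?_, ?_, ?_⟩
      · intro r'
        have h2 := congrFun hFs r'
        rw [Finset.sum_apply] at h2
        simp only [Pi.smul_apply, Pi.sub_apply, smul_eq_mul, phi_apply] at h2
        simp only [Pi.add_apply, add_mul, Finset.sum_add_distrib]
        rw [h2, Finset.sum_eq_single t]
        · rw [Pi.single_eq_same]
          exact (sub_add_cancel _ _).symm
        · intro t' _ ht'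
          rw [Pi.single_eq_of_ne ht', zero_mul]
        · intro h
          exact absurd (Finset.mem_univ t) h
      · rw [Pi.add_apply, Pi.single_eq_same, hF0 t (fun h => lt_irrefl (rkK b S r t) h),
          zero_add]
      · intro t' ht' hrk
        rw [Pi.add_apply, Pi.single_eq_of_ne ht', hF0 t' (fun h => absurd h (not_lt.2 hrk)),
          zero_add]
    · intro s t
      refine entry_mem (D := D) b S u e (x j₀) j₀ _ _ O Δ hgO _ hjO hO hθ (ρ s)
        (fun i hi => ?_) t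
      obtain ⟨h1, h2⟩ := hrow i (hrZ s i hi) j₀ hj hjO
      exact ⟨hrZ s i hi, h1, h2⟩

theorem key {E : Type*} [Field E] {σ ι κ τ : Type*} [Fintype σ] [DecidableEq σ] [Fintype ι]
    [DecidableEq ι] [Fintype κ] [DecidableEq κ] [Fintype τ] (bl : κ → ι) (d e q₀ : ι → ℕ)
    (b q : κ → ℕ) (hq : ∀ t, 0 < q t) (hq₀ : ∀ t, q₀ (bl t) ≤ q t)
    (a : (i : ι) → Sym σ (d i) → E) (p : (t : κ) → Sym σ (b t) → E)
    (h : (t : κ) → Sym σ (q t) → E) (D : Ix σ q → Derivation ℤ E E)
    (jj : τ → Ix σ q) (θ : τ → Ix σ q → E) (hD : Dual q h D jj θ)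
    (hM : Mov bl d b q a p h D)
    (Z Y : Finset ι) (x : σ → E) (i₀ : σ) (hx : x i₀ = 1)
    (hZ : ∀ i ∈ Z, form (a i) x = 0) (hU : ∀ i ∉ Z, form (a i) x ≠ 0)
    (hP : ∀ i, ∃ t, bl t = i ∧ form (p t) x ≠ 0)
    (u : ι → E) (hu : ∀ i ∉ Z, u i ≠ 0)
    (w : ℕ) (hw : 2 * w + 2 + Fintype.card τ + ∑ i, e i ≤ ∑ i, qm Y d q₀ i + Z.card)
    (hm : MinorsVanish D x w) :
    ∃ G : E, G ≠ 0 ∧ KeyC bl d e a p D θ Z Y u x G := by
  obtain ⟨n, rfl⟩ : ∃ n : κ → ℕ, q = fun t => n t + 1 :=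
    ⟨fun t => q t - 1, funext fun t => (Nat.sub_add_cancel (hq t)).symm⟩
  exact key_aux bl d e q₀ b n hq₀ a p h D jj θ hD hM Z Y x i₀ hx hZ hU hP u hu w hw hm

end Pool.Agent.Helper6.CO
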