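import Pool.Agent.Helper6.CO.KeyDefs
import Pool.Agent.Helper8.LV.KeyFun

/-! # CO-KEY: the functionals -/

set_option autoImplicit false

namespace Pool.Agent.Helper6.CO

open Pool.Agent.Helper8.LG
open Pool.Agent.Helper8.LV (kf_grad_form kf_mon_cons kf_form_scale kf_logderiv)

open scoped BigOperators

variable {E : Type*} [Field E] {σ ι κ τ : Type*} [Fintype σ] [DecidableEq σ]
  [DecidableEq ι]

theorem exists_functional [Fintype ι] [Fintype κ] [DecidableEq κ] [Fintype τ] (bl : κ → ι)
    (n : κ → ℕ) {d : ι → ℕ} {b : κ → ℕ}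
    (a : (i : ι) → Sym σ (d i) → E) (p : (t : κ) → Sym σ (b t) → E)
    (h : (t : κ) → Sym σ (n t + 1) → E)
    (D : Ix σ (fun t => n t + 1) → Derivation ℤ E E)
    (jj : τ → Ix σ (fun t => n t + 1)) (θ : τ → Ix σ (fun t => n t + 1) → E)
    (hD : Dual (fun t => n t + 1) h D jj θ) (hM : Mov bl d b (fun t => n t + 1) a p h D)
    (Z : Finset ι) (x : σ → E)
    (hZ : ∀ i ∈ Z, form (a i) x = 0) (hU : ∀ i ∉ Z, form (a i) x ≠ 0) :
    ∃ lam : ((σ ⊕ ι) ⊕ τ → E) →ₗ[E] (ι → E), lam (eul d Z x) = 0 ∧
      (∀ (t : κ) (J : Sym σ (n t + 1)),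
        lam (cv n a D θ Z x ⟨t, J⟩) = Pi.single (bl t) (-(form (p t) x * mon x J))) ∧
      ∀ s, lam (syz n a D θ Z x s) = 0 := by
  choose g hg he using fun i : ι => kf_grad_form (a i) x
  let cor : ι → τ → E := fun i j =>
    if bl (jj j).1 = i then form (p (jj j).1) x * mon x (jj j).2 else 0
  let lam : ((σ ⊕ ι) ⊕ τ → E) →ₗ[E] (ι → E) := LinearMap.pi fun i =>
    (∑ l, g i l • (LinearMap.proj (Sum.inl (Sum.inl l)) : ((σ ⊕ ι) ⊕ τ → E) →ₗ[E] E)) -
      (if i ∈ Z then (0 : E) else form (a i) x) •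
        (LinearMap.proj (Sum.inl (Sum.inr i)) : ((σ ⊕ ι) ⊕ τ → E) →ₗ[E] E) -
      ∑ j, cor i j • (LinearMap.proj (Sum.inr j) : ((σ ⊕ ι) ⊕ τ → E) →ₗ[E] E)
  have hlam : ∀ (v : (σ ⊕ ι) ⊕ τ → E) (i : ι), lam v i = ∑ l, g i l * v (Sum.inl (Sum.inl l)) -
      (if i ∈ Z then (0 : E) else form (a i) x) * v (Sum.inl (Sum.inr i)) -
      ∑ j, cor i j * v (Sum.inr j) := by
    intro v i
    show ((∑ l, g i l • (LinearMap.proj (Sum.inl (Sum.inl l)) : ((σ ⊕ ι) ⊕ τ → E) →ₗ[E] E)) -
      (if i ∈ Z then (0 : E) else form (a i) x) •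
        (LinearMap.proj (Sum.inl (Sum.inr i)) : ((σ ⊕ ι) ⊕ τ → E) →ₗ[E] E) -
      ∑ j, cor i j • (LinearMap.proj (Sum.inr j) : ((σ ⊕ ι) ⊕ τ → E) →ₗ[E] E)) v = _
    rw [LinearMap.sub_apply, LinearMap.sub_apply, LinearMap.sum_apply, LinearMap.sum_apply,
      LinearMap.smul_apply, LinearMap.proj_apply, smul_eq_mul]
    simp only [LinearMap.smul_apply, LinearMap.proj_apply, smul_eq_mul]
  have hcv : ∀ (s : Ix σ (fun t => n t + 1)) (i : ι),
      lam (cv n a D θ Z x s) i = -∑ J, D s (a i J) * mon x J -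
        ∑ j, cor i j * θ j s := by
    intro s i
    rw [hlam]
    have h1 := hg i (D s)
    simp only [cv, Sum.elim_inl, Sum.elim_inr]
    by_cases hi : i ∈ Z
    · rw [if_pos hi, hZ i hi, map_zero] at *
      rw [zero_mul, sub_zero]
      linear_combination -h1
    · rw [if_neg hi, if_neg hi, mul_div_cancel₀ _ (hU i hi), h1]
      ring
  -- the coefficient form of `D_s H_t`
  have hsum : ∀ (s : Ix σ (fun t => n t + 1)) (t : κ), ∑ J, D s (h t J) * mon x J =
      (if s.1 = t then mon x s.2 else 0) -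
        ∑ j, (if (jj j).1 = t then mon x (jj j).2 else 0) * θ j s := by
    intro s i
    have h1 : ∀ J : Sym σ (n i + 1), D s (h i J) * mon x J =
        (if s = ⟨i, J⟩ then mon x J else 0) -
          ∑ j, if jj j = ⟨i, J⟩ then θ j s * mon x J else 0 := by
      intro J
      rw [hD s ⟨i, J⟩, sub_mul, Finset.sum_mul]
      congr 1
      · split_ifs <;> simp
      · refine Finset.sum_congr rfl fun j _ => ?_
        split_ifs <;> simp
    have h2 : ∀ (q : Ix σ (fun t => n t + 1)) (f : E),
        ∑ J : Sym σ (n i + 1), (if q = ⟨i, J⟩ then f * mon x J else 0) =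
          f * if q.1 = i then mon x q.2 else 0 := by
      rintro ⟨k, K⟩ f
      by_cases hk : k = i
      · subst hk
        rw [Finset.sum_eq_single K]
        · simp
        · intro J _ hJ
          rw [if_neg]
          intro h
          apply hJ
          have := eq_of_heq (Sigma.mk.inj h).2
          exact this.symm
        · intro h
          exact absurd (Finset.mem_univ K) h
      · rw [Finset.sum_eq_zero]
        · simp [hk]
        · intro J _
          rw [if_neg]
          intro h
          exact hk (Sigma.mk.inj h).1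
    rw [Finset.sum_congr rfl fun J _ => h1 J, Finset.sum_sub_distrib, Finset.sum_comm]
    congr 1
    · have h3 := h2 s 1
      simpa using h3
    · refine Finset.sum_congr rfl fun j _ => ?_
      rw [h2 (jj j) (θ j s), mul_comm]
  -- summation over the blocks
  have hbl : ∀ (s : Ix σ (fun t => n t + 1)) (i : ι), ∑ J, D s (a i J) * mon x J =
      (if bl s.1 = i then form (p s.1) x * mon x s.2 else 0) - ∑ j, cor i j * θ j s := by
    intro s i
    rw [hM.der s i x]
    have h1 : ∀ (r : Ix σ (fun t => n t + 1)) (f : E),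
        ∑ t, (if bl t = i then form (p t) x * ((if r.1 = t then mon x r.2 else 0) * f) else 0) =
          (if bl r.1 = i then form (p r.1) x * mon x r.2 else 0) * f := by
      intro r f
      rw [Finset.sum_eq_single r.1]
      · simp only [if_true]
        split_ifs <;> ring
      · intro t _ ht
        rw [if_neg (Ne.symm ht), zero_mul, mul_zero, ite_self]
      · intro h
        exact absurd (Finset.mem_univ _) h
    have h2 : ∀ t, (if bl t = i then form (p t) x * ∑ J, D s (h t J) * mon x J else 0) =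
        (if bl t = i then form (p t) x * ((if s.1 = t then mon x s.2 else 0) * 1) else 0) -
          ∑ j, if bl t = i then
            form (p t) x * ((if (jj j).1 = t then mon x (jj j).2 else 0) * θ j s) else 0 := by
      intro t
      rw [hsum]
      by_cases ht : bl t = i
      · simp only [if_pos ht, mul_sub, Finset.mul_sum, mul_one]
      · simp only [if_neg ht, Finset.sum_const_zero, sub_zero]
    rw [Finset.sum_congr rfl fun t _ => h2 t, Finset.sum_sub_distrib, h1 s 1, mul_one,
      Finset.sum_comm]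
    congr 1
    exact Finset.sum_congr rfl fun j _ => h1 (jj j) (θ j s)
  have hcvD : ∀ (t : κ) (J : Sym σ (n t + 1)),
      lam (cv n a D θ Z x ⟨t, J⟩) = Pi.single (bl t) (-(form (p t) x * mon x J)) := by
    intro t J
    funext k
    rw [hcv, hbl]
    by_cases hk : k = bl t
    · subst hk
      rw [Pi.single_eq_same, if_pos rfl]
      ring
    · rw [Pi.single_eq_of_ne hk, if_neg (fun h => hk h.symm)]
      ring
  refine ⟨lam, ?_, hcvD, ?_⟩
  · funext i
    rw [hlam]
    have h1 := he i
    simp only [eul, Sum.elim_inl, Sum.elim_inr, Pi.zero_apply, mul_zero, Finset.sum_const_zero,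
      sub_zero]
    rw [h1]
    by_cases hi : i ∈ Z
    · rw [if_pos hi, hZ i hi]
      ring
    · rw [if_neg hi, if_neg hi]
      ring
  · rintro ⟨t, I, j, l⟩
    simp only [syz, map_sub, map_smul, hcvD, kf_mon_cons]
    funext k
    by_cases hk : k = bl t
    · subst hk
      simp only [Pi.sub_apply, Pi.smul_apply, Pi.single_eq_same, smul_eq_mul, Pi.zero_apply]
      ring
    · simp only [Pi.sub_apply, Pi.smul_apply, Pi.single_eq_of_ne hk, smul_eq_mul, Pi.zero_apply]
      ring

/-- change of normalisation -/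
theorem eul_scale (d : ι → ℕ) (Z : Finset ι) (x : σ → E) (c : E) (hc : c ≠ 0) :
    (eul d Z x : (σ ⊕ ι) ⊕ τ → E) = phi c (eul d Z fun l => x l / c) := by
  funext r
  rcases r with (l | i) | j
  · simp only [eul, phi, LinearMap.pi_apply, LinearMap.smul_apply, LinearMap.proj_apply,
      Sum.elim_inl, smul_eq_mul]
    field_simp
  · simp only [eul, phi, LinearMap.pi_apply, LinearMap.smul_apply, LinearMap.proj_apply,
      Sum.elim_inl, Sum.elim_inr, smul_eq_mul, one_mul]
  · simp only [eul, phi, LinearMap.pi_apply, LinearMap.smul_apply, LinearMap.proj_apply,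
      Sum.elim_inr, smul_eq_mul, one_mul]

theorem cv_scale (n : κ → ℕ) {d : ι → ℕ} (a : (i : ι) → Sym σ (d i) → E)
    (D : Ix σ (fun t => n t + 1) → Derivation ℤ E E)
    (θ : τ → Ix σ (fun t => n t + 1) → E) (Z : Finset ι) (x : σ → E)
    (hU : ∀ i ∉ Z, form (a i) x ≠ 0) (c : E) (hc : c ≠ 0) (s : Ix σ (fun t => n t + 1)) :
    cv n a D θ Z x s =
      phi c (cv n a D θ Z (fun l => x l / c) s) + (D s c / c) • eul d Z x := by
  funext r
  set δ := D s with hδ
  rcases r with (l | i) | j
  · simp only [eul, cv, phi, LinearMap.pi_apply, LinearMap.smul_apply, LinearMap.proj_apply,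
      Sum.elim_inl, smul_eq_mul, Pi.add_apply, Pi.smul_apply]
    have h1 : x l = c * (x l / c) := by field_simp
    have h2 : δ (x l) = c * δ (x l / c) + (x l / c) * δ c := by
      conv_lhs => rw [h1]
      rw [Derivation.leibniz]
      simp only [smul_eq_mul]
    rw [h2]
    ring
  · simp only [eul, cv, phi, LinearMap.pi_apply, LinearMap.smul_apply, LinearMap.proj_apply,
      Sum.elim_inl, Sum.elim_inr, smul_eq_mul, one_mul, Pi.add_apply, Pi.smul_apply]
    by_cases hi : i ∈ Z
    · simp only [if_pos hi]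
      ring
    · simp only [if_neg hi]
      have h1 := kf_form_scale (a i) x c hc
      have h2 : form (a i) (fun l => x l / c) ≠ 0 := by
        intro h0
        apply hU i hi
        rw [h1, h0, mul_zero]
      have h3 := kf_logderiv δ c (form (a i) (fun l => x l / c)) (d i) hc h2
      rw [← h1] at h3
      exact h3
  · simp only [eul, cv, phi, LinearMap.pi_apply, LinearMap.smul_apply, LinearMap.proj_apply,
      Sum.elim_inr, smul_eq_mul, one_mul, Pi.add_apply, Pi.smul_apply, mul_zero, add_zero]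

theorem syz_scale (n : κ → ℕ) {d : ι → ℕ} (a : (i : ι) → Sym σ (d i) → E)
    (D : Ix σ (fun t => n t + 1) → Derivation ℤ E E)
    (θ : τ → Ix σ (fun t => n t + 1) → E) (Z : Finset ι) (x : σ → E)
    (hU : ∀ i ∉ Z, form (a i) x ≠ 0) (c : E) (hc : c ≠ 0)
    (s : Σ t : κ, Sym σ (n t) × σ × σ) :
    ∃ b : E, syz n a D θ Z x s = c • phi c (syz n a D θ Z (fun l => x l / c) s) +
      b • eul d Z x := by
  obtain ⟨i, I, j, l⟩ := s
  refine ⟨x j * (D ⟨i, l ::ₛ I⟩ c / c) - x l * (D ⟨i, j ::ₛ I⟩ c / c), ?_⟩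
  simp only [syz]
  rw [cv_scale n a D θ Z x hU c hc ⟨i, l ::ₛ I⟩, cv_scale n a D θ Z x hU c hc ⟨i, j ::ₛ I⟩]
  funext r
  simp only [map_sub, map_smul, Pi.sub_apply, Pi.smul_apply, Pi.add_apply, smul_eq_mul]
  have h1 : x j = c * (x j / c) := by field_simp
  have h2 : x l = c * (x l / c) := by field_simp
  field_simp
  ring

end Pool.Agent.Helper6.CO
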