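import Pool.Agent.Helper6.CO.KeyDefs

/-! # LG-K2: modulo the linear syzygies all columns of one form are proportional -/

set_option autoImplicit false

namespace Pool.Agent.Helper6.CO

open Pool.Agent.Helper8.LG

open scoped BigOperators

section path

variable {R M τ : Type*} [CommRing R] [AddCommGroup M] [Module R M]

/-- a function on multisets of one size, extended by zero -/
private noncomputable def K2_ext (m : ℕ) (V : Sym τ m → M) (s : Multiset τ) : M := by
  classical
  exact if h : s.card = m then V (Sym.mk s h) else 0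

private theorem K2_ext_coe (m : ℕ) (V : Sym τ m → M) (J : Sym τ m) :
    K2_ext m V (J : Multiset τ) = V J := by
  have h : (J : Multiset τ).card = m := J.2
  unfold K2_ext
  rw [dif_pos h]
  rfl

private theorem K2_path (m : ℕ) (V : Sym τ (m + 1) → M) (W : Submodule R M) (x : τ → R)
    (hW : ∀ (I : Sym τ m) (j l : τ), x j • V (l ::ₛ I) - x l • V (j ::ₛ I) ∈ W) (j₀ : τ)
    (s : Multiset τ) : ∀ t : Multiset τ, s.card + t.card = m + 1 →
      x j₀ ^ s.card • K2_ext (m + 1) V (s + t) -
        (s.map x).prod • K2_ext (m + 1) V (Multiset.replicate s.card j₀ + t) ∈ W := by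
  induction s using Multiset.induction_on with
  | empty =>
    intro t _
    simp
  | cons l s ih =>
    intro t ht
    rw [Multiset.card_cons] at ht
    have h1 := ih (l ::ₘ t) (by rw [Multiset.card_cons]; omega)
    have hI : (Multiset.replicate s.card j₀ + t).card = m := by
      rw [Multiset.card_add, Multiset.card_replicate]; omega
    have h2 := hW (Sym.mk (Multiset.replicate s.card j₀ + t) hI) j₀ l
    rw [← K2_ext_coe (m + 1) V, ← K2_ext_coe (m + 1) V, Sym.coe_cons, Sym.coe_cons] at h2
    have h3 := W.add_mem (W.smul_mem (x j₀) h1) (W.smul_mem (s.map x).prod h2)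
    have e1 : s + l ::ₘ t = l ::ₘ s + t := by
      rw [Multiset.add_cons, Multiset.cons_add]
    have e2 : Multiset.replicate s.card j₀ + l ::ₘ t =
        l ::ₘ (Multiset.replicate s.card j₀ + t) := by
      rw [Multiset.add_cons]
    have e3 : Multiset.replicate (s.card + 1) j₀ + t =
        j₀ ::ₘ (Multiset.replicate s.card j₀ + t) := by
      rw [Multiset.replicate_succ, Multiset.cons_add]
    rw [e1, e2, Sym.coe_mk] at h3
    rw [Multiset.card_cons, e3, Multiset.map_cons, Multiset.prod_cons]
    have e5 : x j₀ ^ (s.card + 1) • K2_ext (m + 1) V (l ::ₘ s + t) -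
        (x l * (s.map x).prod) • K2_ext (m + 1) V
          (j₀ ::ₘ (Multiset.replicate s.card j₀ + t)) =
        x j₀ • (x j₀ ^ s.card • K2_ext (m + 1) V (l ::ₘ s + t) -
          (s.map x).prod • K2_ext (m + 1) V
            (l ::ₘ (Multiset.replicate s.card j₀ + t))) +
        (s.map x).prod • (x j₀ • K2_ext (m + 1) V
            (l ::ₘ (Multiset.replicate s.card j₀ + t)) -
          x l • K2_ext (m + 1) V
            (j₀ ::ₘ (Multiset.replicate s.card j₀ + t))) := by
      module
    rw [e5]
    exact h3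

private theorem K2_main (m : ℕ) (V : Sym τ (m + 1) → M) (W : Submodule R M) (x : τ → R)
    (hW : ∀ (I : Sym τ m) (j l : τ), x j • V (l ::ₛ I) - x l • V (j ::ₛ I) ∈ W) (j₀ : τ)
    (J : Sym τ (m + 1)) :
    x j₀ ^ (m + 1) • V J - mon x J • V (Sym.replicate (m + 1) j₀) ∈ W := by
  have hc : (J : Multiset τ).card = m + 1 := J.2
  have h := K2_path m V W x hW j₀ (J : Multiset τ) 0 (by rw [hc]; simp)
  rw [hc, add_zero, add_zero, K2_ext_coe] at h
  have hr : (Multiset.replicate (m + 1) j₀ : Multiset τ) =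
      ((Sym.replicate (m + 1) j₀ : Sym τ (m + 1)) : Multiset τ) := by
    rw [Sym.coe_replicate]
  rw [hr, K2_ext_coe] at h
  exact h

end path

variable {E : Type*} [Field E] {σ ι κ τ : Type*} [Fintype σ] [DecidableEq σ]
  [DecidableEq ι]

theorem cv_sub_mem (n : κ → ℕ) {d : ι → ℕ} (a : (i : ι) → Sym σ (d i) → E)
    (D : Ix σ (fun t => n t + 1) → Derivation ℤ E E)
    (θ : τ → Ix σ (fun t => n t + 1) → E) (Z : Finset ι) (x : σ → E)
    (j₀ : σ) (t : κ) (J : Sym σ (n t + 1)) :
    x j₀ ^ (n t + 1) • cv n a D θ Z x ⟨t, J⟩ -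
      mon x J • cv n a D θ Z x ⟨t, Sym.replicate (n t + 1) j₀⟩ ∈
      Submodule.span E (Set.range (syz n a D θ Z x)) := by
  refine K2_main (n t) (fun J => cv n a D θ Z x ⟨t, J⟩) _ x ?_ j₀ J
  intro I j l
  exact Submodule.subset_span ⟨⟨t, I, j, l⟩, rfl⟩

end Pool.Agent.Helper6.CO
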