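import Pool.Agent.Helper6.CO.KeyLin
import Pool.Agent.Helper6.CO.KeyPath
import Pool.Agent.Helper6.CO.KeyFun

/-! # CO-KEY: the columns -/

set_option autoImplicit false

namespace Pool.Agent.Helper6.CO

open Pool.Agent.Helper8.LG

open scoped BigOperators

section

variable {E : Type*} [Field E] {σ ι κ Tt : Type*} [Fintype σ] [DecidableEq σ] [DecidableEq ι]
  (n : κ → ℕ) {d : ι → ℕ} (a : (i : ι) → Sym σ (d i) → E)
  (D : Ix σ (fun t => n t + 1) → Derivation ℤ E E)
  (θ : Tt → Ix σ (fun t => n t + 1) → E) (Z : Finset ι) (x : σ → E)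

omit [Fintype σ] [DecidableEq σ] [DecidableEq ι] in
theorem phi_inj {c : E} (hc : c ≠ 0) :
    Function.Injective (phi (σ := σ) (ι := ι) (τ := Tt) c) := by
  intro f g h
  funext r
  have h1 := congrFun h r
  rcases r with (l | i) | j
  · simp only [phi, LinearMap.pi_apply, LinearMap.smul_apply, LinearMap.proj_apply, Sum.elim_inl,
      smul_eq_mul] at h1
    exact mul_left_cancel₀ hc h1
  · simpa only [phi, LinearMap.pi_apply, LinearMap.smul_apply, LinearMap.proj_apply, Sum.elim_inl,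
      Sum.elim_inr, smul_eq_mul, one_mul] using h1
  · simpa only [phi, LinearMap.pi_apply, LinearMap.smul_apply, LinearMap.proj_apply, Sum.elim_inr,
      smul_eq_mul, one_mul] using h1

omit [Fintype σ] [DecidableEq σ] [DecidableEq ι] in
theorem phi_apply (c : E) (f : (σ ⊕ ι) ⊕ Tt → E) (r : (σ ⊕ ι) ⊕ Tt) :
    phi c f r = (Sum.elim (Sum.elim (fun _ => c) (fun _ => 1)) (fun _ => 1) r : E) * f r := rfl

omit [Fintype σ] [DecidableEq σ] in
theorem eul_row {i : ι} (hi : i ∈ Z) :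
    (eul d Z x : (σ ⊕ ι) ⊕ Tt → E) (Sum.inl (Sum.inr i)) = 0 := by
  simp [eul, hi]

theorem cv_row (s : Ix σ (fun t => n t + 1)) {i : ι} (hi : i ∈ Z) :
    cv n a D θ Z x s (Sum.inl (Sum.inr i)) = 0 := by
  simp [cv, hi]

theorem syz_row (s : Σ t : κ, Sym σ (n t) × σ × σ) {i : ι} (hi : i ∈ Z) :
    syz n a D θ Z x s (Sum.inl (Sum.inr i)) = 0 := by
  simp [syz, cv_row n a D θ Z x _ hi]

/-- the column indexed by `o` -/
def colF (o : Option (Σ t : κ, Sym σ (n t) × σ × σ)) : (σ ⊕ ι) ⊕ Tt → E :=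
  o.elim (eul d Z x) (syz n a D θ Z x)

/-- the column indexed by `t` -/
def colR (j : σ) (t : κ) : (σ ⊕ ι) ⊕ Tt → E :=
  cv n a D θ Z x ⟨t, Sym.replicate (n t + 1) j⟩

omit [Fintype σ] [DecidableEq σ] in
theorem mon_rep (x : σ → E) (m : ℕ) (j : σ) : mon x (Sym.replicate m j) = x j ^ m := by
  simp [mon, Sym.coe_replicate]

variable {n a D θ Z x}

theorem span_tilde (b : Set (Option (Σ t : κ, Sym σ (n t) × σ × σ))) (hb0 : none ∈ b)
    (hbsp : ∀ s, syz n a D θ Z x s ∈
      Submodule.span E (Set.range fun o : b => colF n a D θ Z x (o : Option _)))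
    (hU : ∀ i ∉ Z, form (a i) x ≠ 0) {c : E} (hc : c ≠ 0)
    (s : Σ t : κ, Sym σ (n t) × σ × σ) :
    syz n a D θ Z (fun l => x l / c) s ∈
      Submodule.span E (Set.range fun o : b => colF n a D θ Z (fun l => x l / c) (o : Option _)) := by
  set W := Submodule.span E
    (Set.range fun o : b => colF n a D θ Z (fun l => x l / c) (o : Option _)) with hW
  have h0 : eul d Z (fun l => x l / c) ∈ W := Submodule.subset_span ⟨⟨none, hb0⟩, rfl⟩
  have h0' : (eul d Z x : (σ ⊕ ι) ⊕ Tt → E) ∈ W.map (phi c) := by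
    rw [eul_scale d Z x c hc]
    exact Submodule.mem_map_of_mem h0
  have h1 : Submodule.span E (Set.range fun o : b => colF n a D θ Z x (o : Option _)) ≤
      W.map (phi c) := by
    rw [Submodule.span_le]
    rintro _ ⟨⟨o, ho⟩, rfl⟩
    rcases o with _ | s'
    · exact h0'
    · obtain ⟨bb, hbb⟩ := syz_scale n a D θ Z x hU c hc s'
      change syz n a D θ Z x s' ∈ W.map (phi c)
      rw [hbb]
      exact add_mem (Submodule.smul_mem _ _ (Submodule.mem_map_of_mem
        (Submodule.subset_span ⟨⟨some s', ho⟩, rfl⟩))) (Submodule.smul_mem _ _ h0')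
  obtain ⟨bb, hbb⟩ := syz_scale n a D θ Z x hU c hc s
  have h2 := h1 (hbsp s)
  have h3 : c • phi c (syz n a D θ Z (fun l => x l / c) s) ∈ W.map (phi c) := by
    have h4 := sub_mem h2 (Submodule.smul_mem _ bb h0')
    rwa [hbb, add_sub_cancel_right] at h4
  have h5 : phi c (syz n a D θ Z (fun l => x l / c) s) ∈ W.map (phi c) := by
    have h6 := Submodule.smul_mem _ c⁻¹ h3
    rwa [smul_smul, inv_mul_cancel₀ hc, one_smul] at h6
  obtain ⟨y, hy, hy2⟩ := h5
  rw [← phi_inj hc hy2]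
  exact hy

/-- the column indexed by `t`; the columns of the blocks are given by their weights `g` and
their indices `f` -/
def colK (n : κ → ℕ) {d : ι → ℕ} (a : (i : ι) → Sym σ (d i) → E)
    (D : Ix σ (fun t => n t + 1) → Derivation ℤ E E)
    (θ : Tt → Ix σ (fun t => n t + 1) → E) (Z : Finset ι)
    (b : Set (Option (Σ t : κ, Sym σ (n t) × σ × σ))) (S : Set κ) (x : σ → E) (j : σ)
    (g : κ → E) (f : κ → κ) : (b ⊕ S) → (σ ⊕ ι) ⊕ Tt → E :=
  Sum.elim (fun o : b => colF n a D θ Z x (o : Option _))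
    fun t : S => g t • colR n a D θ Z x j (f t)

/-- the ranks of the columns -/
def rkK {A : Type*} (b : Set (Option A)) (S : Set κ) (r : κ → ℕ) : (b ⊕ S) → ℕ :=
  Sum.elim (fun o : b => (o : Option A).elim 0 fun _ => 1) fun t : S => 2 + r t

/-- the diagonal entries of the transition matrix -/
def gK {A : Type*} (b : Set (Option A)) (S : Set κ) (Q : κ → ℕ) (c : E) : (b ⊕ S) → E :=
  Sum.elim (fun o : b => (o : Option A).elim 1 fun _ => c) fun t : S => (c ^ Q t)⁻¹

/-- the rows of a family of columns, spanned by `x` and the `D_p x` -/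
theorem colK_span (b : Set (Option (Σ t : κ, Sym σ (n t) × σ × σ))) (S : Set κ)
    (i₀ : σ) (g : κ → E) (f : κ → κ) (t : b ⊕ S) :
    (fun l => colK n a D θ Z b S x i₀ g f t (Sum.inl (Sum.inl l))) ∈
      Submodule.span E (Set.range (col D x)) := by
  have h1 : ∀ q, col D x q ∈ Submodule.span E (Set.range (col D x)) :=
    fun q => Submodule.subset_span ⟨q, rfl⟩
  rcases t with ⟨o, ho⟩ | t
  · rcases o with _ | s
    · exact h1 none
    · exact sub_mem (Submodule.smul_mem _ (x s.2.2.1) (h1 (some ⟨s.1, s.2.2.2 ::ₛ s.2.1⟩)))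
        (Submodule.smul_mem _ (x s.2.2.2) (h1 (some ⟨s.1, s.2.2.1 ::ₛ s.2.1⟩)))
  · exact Submodule.smul_mem _ (g t) (h1 (some ⟨f t, Sym.replicate (n (f t) + 1) i₀⟩))

theorem colK_zero (b : Set (Option (Σ t : κ, Sym σ (n t) × σ × σ))) (S : Set κ)
    (i₀ : σ) (g : κ → E) (f : κ → κ) (t : b ⊕ S) {i : ι} (hi : i ∈ Z) :
    colK n a D θ Z b S x i₀ g f t (Sum.inl (Sum.inr i)) = 0 := by
  rcases t with ⟨o, ho⟩ | t
  · rcases o with _ | s
    · exact eul_row (Tt := Tt) Z x hi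
    · exact syz_row n a D θ Z x s hi
  · have h1 := cv_row n a D θ Z x ⟨f t, Sym.replicate (n (f t) + 1) i₀⟩ hi
    change g t * cv n a D θ Z x ⟨f t, Sym.replicate (n (f t) + 1) i₀⟩ (Sum.inl (Sum.inr i)) = 0
    rw [h1, mul_zero]

omit [DecidableEq ι] [Fintype σ] [DecidableEq σ] in
theorem prod_gK {A : Type*} (b : Set (Option A)) [Fintype b] (S : Set κ) [Fintype S]
    (hb0 : none ∈ b) (Q : κ → ℕ) (c : E) (hc : c ≠ 0) :
    (∏ t, gK b S Q c t) * (c * c ^ ∑ t : S, Q t) = c ^ Fintype.card b := by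
  classical
  rw [Fintype.prod_sum_type]
  have h1 : ∏ t : S, gK b S Q c (Sum.inr t) = (c ^ ∑ t : S, Q t)⁻¹ := by
    rw [← Finset.prod_pow_eq_pow_sum, ← Finset.prod_inv_distrib]
    rfl
  have h2 : (∏ o : b, gK b S Q c (Sum.inl o)) * c = c ^ Fintype.card b := by
    rw [← Finset.mul_prod_erase Finset.univ _ (Finset.mem_univ (⟨none, hb0⟩ : b))]
    have h3 : gK b S Q c (Sum.inl ⟨none, hb0⟩) = 1 := rfl
    rw [h3, one_mul, Finset.prod_congr rfl (g := fun _ => c)]
    · rw [Finset.prod_const, Finset.card_erase_of_mem (Finset.mem_univ _), Finset.card_univ,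
        ← pow_succ]
      congr 1
      have h5 : 0 < Fintype.card b := Fintype.card_pos_iff.2 ⟨⟨none, hb0⟩⟩
      exact Nat.sub_add_cancel h5
    · rintro ⟨o, ho⟩ h
      rcases o with _ | s
      · exact absurd rfl (Finset.ne_of_mem_erase h)
      · rfl
  rw [h1]
  have h4 : c ^ ∑ t : S, Q t ≠ 0 := pow_ne_zero _ hc
  calc (∏ o : b, gK b S Q c (Sum.inl o)) * (c ^ ∑ t : S, Q t)⁻¹ * (c * c ^ ∑ t : S, Q t)
      = ((∏ o : b, gK b S Q c (Sum.inl o)) * c) * ((c ^ ∑ t : S, Q t)⁻¹ * c ^ ∑ t : S, Q t) := by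
        ring
    _ = c ^ Fintype.card b := by rw [inv_mul_cancel₀ h4, mul_one, h2]

end

end Pool.Agent.Helper6.CO
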