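import Pool.Agent.Helper6.CO.Defs

/-! # CO-KEY: definitions for the linear algebra

The rows are `(σ ⊕ ι) ⊕ τ`: the coordinates of the point, the forms, the corrections. -/

set_option autoImplicit false

namespace Pool.Agent.Helper6.CO

open Pool.Agent.Helper8.LG

open scoped BigOperators

variable {E : Type*} [Field E] {σ ι κ τ : Type*} [Fintype σ] [DecidableEq σ]
  [DecidableEq ι]

/-- the Euler column `(x; d_i; 0)`, zero in the rows of `Z` -/
def eul (d : ι → ℕ) (Z : Finset ι) (x : σ → E) : (σ ⊕ ι) ⊕ τ → E :=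
  Sum.elim (Sum.elim x fun i => if i ∈ Z then 0 else (d i : E)) fun _ => 0

/-- the column `(D_s x; D_s F_i(x) / F_i(x); θ_s)` of an index `s`, zero in the rows of `Z` -/
def cv (n : κ → ℕ) {d : ι → ℕ} (a : (i : ι) → Sym σ (d i) → E)
    (D : Ix σ (fun t => n t + 1) → Derivation ℤ E E)
    (θ : τ → Ix σ (fun t => n t + 1) → E) (Z : Finset ι) (x : σ → E)
    (s : Ix σ (fun t => n t + 1)) : (σ ⊕ ι) ⊕ τ → E :=
  Sum.elim (Sum.elim (fun l => D s (x l)) fun i =>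
    if i ∈ Z then 0 else D s (form (a i) x) / form (a i) x) fun j => θ j s

/-- the column of the linear syzygy `x_j ∂_(I + e_l) - x_l ∂_(I + e_j)`,
`s = (t, I, j, l)` -/
def syz (n : κ → ℕ) {d : ι → ℕ} (a : (i : ι) → Sym σ (d i) → E)
    (D : Ix σ (fun t => n t + 1) → Derivation ℤ E E)
    (θ : τ → Ix σ (fun t => n t + 1) → E) (Z : Finset ι) (x : σ → E)
    (s : Σ t : κ, Sym σ (n t) × σ × σ) : (σ ⊕ ι) ⊕ τ → E :=
  x s.2.2.1 • cv n a D θ Z x ⟨s.1, s.2.2.2 ::ₛ s.2.1⟩ -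
    x s.2.2.2 • cv n a D θ Z x ⟨s.1, s.2.2.1 ::ₛ s.2.1⟩

/-- multiplication of the `x`-rows by `c` -/
def phi (c : E) : ((σ ⊕ ι) ⊕ τ → E) →ₗ[E] ((σ ⊕ ι) ⊕ τ → E) :=
  LinearMap.pi fun r =>
    (Sum.elim (Sum.elim (fun _ => c) fun _ => 1) (fun _ => 1) r : E) • LinearMap.proj r

end Pool.Agent.Helper6.CO
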