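import Pool.Agent.Helper6.CO.KeyCol

/-! # CO-KEY: the transition between two normalisations -/

set_option autoImplicit false

namespace Pool.Agent.Helper6.CO

open Pool.Agent.Helper8.LG
open Pool.Agent.Helper8.LV (kf_form_scale)

open scoped BigOperators

section

variable {E : Type*} [Field E] {σ ι κ Tt : Type*} [Fintype σ] [DecidableEq σ] [DecidableEq ι]
  {n : κ → ℕ} {d : ι → ℕ} {a : (i : ι) → Sym σ (d i) → E}
  {D : Ix σ (fun t => n t + 1) → Derivation ℤ E E}
  {θ : Tt → Ix σ (fun t => n t + 1) → E} {Z : Finset ι} {x : σ → E}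

/-- the basis columns -/
theorem colF_mem (b : Set (Option (Σ t : κ, Sym σ (n t) × σ × σ))) (hb0 : none ∈ b)
    (hU : ∀ i ∉ Z, form (a i) x ≠ 0) {c : E} (hc : c ≠ 0) (o : b) :
    colF n a D θ Z x (o : Option _) ∈ Submodule.span E
      (Set.range fun o : b => phi c (colF n a D θ Z (fun l => x l / c) (o : Option _))) := by
  have h0 : (eul d Z x : (σ ⊕ ι) ⊕ Tt → E) ∈ Submodule.span E
      (Set.range fun o : b => phi c (colF n a D θ Z (fun l => x l / c) (o : Option _))) := by
    rw [eul_scale d Z x c hc]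
    exact Submodule.subset_span ⟨⟨none, hb0⟩, rfl⟩
  obtain ⟨o, ho⟩ := o
  rcases o with _ | s
  · exact h0
  · obtain ⟨bb, hbb⟩ := syz_scale n a D θ Z x hU c hc s
    change syz n a D θ Z x s ∈ _
    rw [hbb]
    exact add_mem (Submodule.smul_mem _ _ (Submodule.subset_span ⟨⟨some s, ho⟩, rfl⟩))
      (Submodule.smul_mem _ _ h0)

/-- the columns of the moving forms -/
theorem colR_mem (b : Set (Option (Σ t : κ, Sym σ (n t) × σ × σ))) (hb0 : none ∈ b)
    (hbsp : ∀ s, syz n a D θ Z x s ∈
      Submodule.span E (Set.range fun o : b => colF n a D θ Z x (o : Option _)))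
    (hU : ∀ i ∉ Z, form (a i) x ≠ 0) (i₀ : σ) (hx : x i₀ = 1) (j₀ : σ) (hj : x j₀ ≠ 0)
    (t : κ) :
    colR n a D θ Z x i₀ t - (x j₀ ^ (n t + 1))⁻¹ •
        phi (x j₀) (colR n a D θ Z (fun l => x l / x j₀) j₀ t) ∈
      Submodule.span E
        (Set.range fun o : b =>
          phi (x j₀) (colF n a D θ Z (fun l => x l / x j₀) (o : Option _))) := by
  set c := x j₀ with hc
  set xt : σ → E := fun l => x l / c with hxt
  have h1 := cv_sub_mem n a D θ Z xt j₀ t (Sym.replicate (n t + 1) i₀)
  have hxj : xt j₀ = 1 := div_self hj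
  rw [hxj, one_pow, one_smul, mon_rep] at h1
  have h2 : Submodule.span E (Set.range (syz n a D θ Z xt)) ≤
      Submodule.span E (Set.range fun o : b => colF n a D θ Z xt (o : Option _)) := by
    rw [Submodule.span_le]
    rintro _ ⟨s, rfl⟩
    exact span_tilde b hb0 hbsp hU hj s
  have h3 := h2 h1
  have hxi : xt i₀ ^ (n t + 1) = (c ^ (n t + 1))⁻¹ := by
    rw [hxt]
    simp only
    rw [hx, one_div, inv_pow]
  rw [hxi] at h3
  have h4 : ∀ z, z ∈ Submodule.span E (Set.range fun o : b => colF n a D θ Z xt (o : Option _)) →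
      phi c z ∈ Submodule.span E
        (Set.range fun o : b => phi c (colF n a D θ Z xt (o : Option _))) := by
    intro z hz
    have h5 := Submodule.mem_map_of_mem (f := phi (σ := σ) (ι := ι) (τ := Tt) c) hz
    rw [Submodule.map_span, ← Set.range_comp] at h5
    exact h5
  have h6 := h4 _ h3
  rw [map_sub, map_smul] at h6
  have h7 := cv_scale n a D θ Z x hU c hj ⟨t, Sym.replicate (n t + 1) i₀⟩
  have h8 : colR n a D θ Z x i₀ t - (c ^ (n t + 1))⁻¹ • phi c (colR n a D θ Z xt j₀ t) =
      (phi c (cv n a D θ Z xt ⟨t, Sym.replicate (n t + 1) i₀⟩) -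
        (c ^ (n t + 1))⁻¹ • phi c (cv n a D θ Z xt ⟨t, Sym.replicate (n t + 1) j₀⟩)) +
        (D ⟨t, Sym.replicate (n t + 1) i₀⟩ c / c) • eul d Z x := by
    change cv n a D θ Z x ⟨t, Sym.replicate (n t + 1) i₀⟩ - _ = _
    rw [h7]
    change _ - (c ^ (n t + 1))⁻¹ • phi c (cv n a D θ Z xt ⟨t, Sym.replicate (n t + 1) j₀⟩) = _
    abel
  rw [h8]
  refine add_mem h6 (Submodule.smul_mem _ _ ?_)
  rw [eul_scale d Z x c hj]
  exact Submodule.subset_span ⟨⟨none, hb0⟩, rfl⟩

/-- In a block with only one column the columns are proportional to the values of the `m_t`,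
modulo the columns of smaller rank. -/
theorem flag_one {V : Type*} [AddCommGroup V] [Module E V] (bl : κ → ι) (V₀ : Submodule E V)
    (C : κ → V) (r : κ → ℕ) (S : Set κ)
    (hF2 : ∀ t, C t ∈ V₀ ⊔ Submodule.span E (C '' {s | s ∈ S ∧ r s ≤ r t}))
    (hF3 : ∀ s t t', bl t = bl t' → bl s ≠ bl t → r s ≤ r t → r s < r t')
    (lam : V →ₗ[E] (ι → E)) (m : κ → E) (hV : ∀ v ∈ V₀, lam v = 0)
    (hC : ∀ t, lam (C t) = Pi.single (bl t) (-(m t))) (t : κ)
    (hone : ∀ s ∈ S, bl s = bl t → s = t) (t₁ : κ) (ht₁ : bl t₁ = bl t) :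
    ∃ (c : E) (v w : V), v ∈ V₀ ∧ w ∈ Submodule.span E (C '' {s | s ∈ S ∧ r s < r t}) ∧
      C t₁ = v + w + c • C t ∧ m t₁ = c * m t := by
  have h1 : C t₁ ∈ (V₀ ⊔ Submodule.span E (C '' {s | s ∈ S ∧ r s < r t})) ⊔
      Submodule.span E {C t} := by
    refine (sup_le (le_sup_left.trans le_sup_left) ?_ :
      V₀ ⊔ Submodule.span E (C '' {s | s ∈ S ∧ r s ≤ r t₁}) ≤ _) (hF2 t₁)
    rw [Submodule.span_le]
    rintro _ ⟨s, ⟨hs1, hs2⟩, rfl⟩
    by_cases hs : bl s = bl t
    · have h2 := hone s hs1 hs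
      rw [h2]
      exact Submodule.mem_sup_right (Submodule.mem_span_singleton_self _)
    · exact Submodule.mem_sup_left (Submodule.mem_sup_right (Submodule.subset_span
        ⟨s, ⟨hs1, hF3 s t₁ t ht₁ (by rw [ht₁]; exact hs) hs2⟩, rfl⟩))
  obtain ⟨y, hy, z, hz, hyz⟩ := Submodule.mem_sup.1 h1
  obtain ⟨v, hv, w, hw, hvw⟩ := Submodule.mem_sup.1 hy
  obtain ⟨c, rfl⟩ := Submodule.mem_span_singleton.1 hz
  refine ⟨c, v, w, hv, hw, by rw [hvw, hyz], ?_⟩
  have h2 : lam w (bl t) = 0 := by
    have h3 : Submodule.span E (C '' {s | s ∈ S ∧ r s < r t}) ≤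
        LinearMap.ker ((LinearMap.proj (bl t) : (ι → E) →ₗ[E] E).comp lam) := by
      rw [Submodule.span_le]
      rintro _ ⟨s, ⟨hs1, hs2⟩, rfl⟩
      have hne : bl t ≠ bl s := by
        intro h
        have h4 := hone s hs1 h.symm
        rw [h4] at hs2
        exact lt_irrefl _ hs2
      rw [SetLike.mem_coe, LinearMap.mem_ker, LinearMap.comp_apply, LinearMap.proj_apply, hC,
        Pi.single_eq_of_ne hne]
    exact h3 hw
  have h3 := congrArg (fun z => lam z (bl t)) hyz
  rw [← hvw] at h3
  simp only [map_add, map_smul, Pi.add_apply, Pi.smul_apply, h2, hV v hv, Pi.zero_apply, hC,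
    ht₁, Pi.single_eq_same, smul_eq_mul] at h3
  linear_combination h3

theorem trans_mem [Finite κ] (bl : κ → ι) {bb : κ → ℕ} (p : (t : κ) → Sym σ (bb t) → E)
    (hdeg : ∀ t, d (bl t) = bb t + (n t + 1))
    (b : Set (Option (Σ t : κ, Sym σ (n t) × σ × σ))) (hb0 : none ∈ b)
    (hbsp : ∀ s, syz n a D θ Z x s ∈
      Submodule.span E (Set.range fun o : b => colF n a D θ Z x (o : Option _)))
    (hU : ∀ i ∉ Z, form (a i) x ≠ 0) (i₀ : σ) (hx : x i₀ = 1) (j₀ : σ) (hj : x j₀ ≠ 0)
    (r : κ → ℕ) (S : Set κ)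
    (hF2 : ∀ t, colR n a D θ Z x i₀ t ∈
      Submodule.span E (Set.range fun o : b => colF n a D θ Z x (o : Option _)) ⊔
        Submodule.span E (colR n a D θ Z x i₀ '' {s | s ∈ S ∧ r s ≤ r t}))
    (hF3 : ∀ s t t', bl t = bl t' → bl s ≠ bl t → r s ≤ r t → r s < r t')
    (lam : ((σ ⊕ ι) ⊕ Tt → E) →ₗ[E] (ι → E))
    (hV : ∀ v ∈ Submodule.span E (Set.range fun o : b => colF n a D θ Z x (o : Option _)),
      lam v = 0)
    (hC : ∀ t, lam (colR n a D θ Z x i₀ t) = Pi.single (bl t) (-(form (p t) x)))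
    (sp : ι → Prop) [DecidablePred sp]
    (hone : ∀ t ∈ S, sp (bl t) → ∀ s ∈ S, bl s = bl t → s = t)
    (hne : ∀ t ∈ S, sp (bl t) → form (p t) x ≠ 0)
    (f : ι → κ) (hf : ∀ i, sp i → bl (f i) = i ∧ form (p (f i)) (fun l => x l / x j₀) ≠ 0)
    (t : b ⊕ S) :
    colK n a D θ Z b S x i₀ (fun t => if sp (bl t) then (form (p t) x)⁻¹ else 1) id t -
      gK b S (fun t => if sp (bl t) then d (bl t) else n t + 1) (x j₀) t •
        phi (x j₀) (colK n a D θ Z b S (fun l => x l / x j₀) j₀
          (fun t => if sp (bl t) then (form (p (f (bl t))) fun l => x l / x j₀)⁻¹ else 1)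
          (fun t => if sp (bl t) then f (bl t) else t) t) ∈
      Submodule.span E ((fun t' => phi (x j₀) (colK n a D θ Z b S (fun l => x l / x j₀) j₀
          (fun t => if sp (bl t) then (form (p (f (bl t))) fun l => x l / x j₀)⁻¹ else 1)
          (fun t => if sp (bl t) then f (bl t) else t) t')) ''
            {t' | rkK b S r t' < rkK b S r t}) := by
  set c := x j₀ with hc
  set xt : σ → E := fun l => x l / c with hxt
  set g : κ → E := fun t => if sp (bl t) then (form (p t) x)⁻¹ else 1 with hg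
  set gt : κ → E := fun t => if sp (bl t) then (form (p (f (bl t))) xt)⁻¹ else 1 with hgt
  set ft : κ → κ := fun t => if sp (bl t) then f (bl t) else t with hft
  set Q : κ → ℕ := fun t => if sp (bl t) then d (bl t) else n t + 1 with hQ
  set Kt := colK n a D θ Z b S xt j₀ gt ft with hKt
  set X2 := Submodule.span E
    (Set.range fun o : b => phi c (colF n a D θ Z xt (o : Option _))) with hX2
  -- the part of the basis
  have hX2le : ∀ m, 2 ≤ m → X2 ≤ Submodule.span E ((fun t' => phi c (Kt t')) ''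
      {t' | rkK b S r t' < m}) := by
    intro m hm
    rw [hX2, Submodule.span_le]
    rintro _ ⟨o, rfl⟩
    refine Submodule.subset_span ⟨Sum.inl o, ?_, rfl⟩
    obtain ⟨o, ho⟩ := o
    rcases o with _ | s
    · change 0 < m
      omega
    · change 1 < m
      omega
  -- the other columns
  have key : ∀ (N : ℕ) (t : κ) (ht : t ∈ S), r t = N →
      g t • colR n a D θ Z x i₀ t - (c ^ Q t)⁻¹ • phi c (gt t • colR n a D θ Z xt j₀ (ft t)) ∈
      Submodule.span E ((fun t' => phi c (Kt t')) '' {t' | rkK b S r t' < 2 + r t}) := by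
    intro N
    induction N using Nat.strong_induction_on with
    | _ N ih =>
      intro t ht htN
      by_cases hsp : sp (bl t)
      · obtain ⟨hf1, hf2⟩ := hf (bl t) hsp
        obtain ⟨cc, v, w, hv, hw, h1, h2⟩ := flag_one bl _ (colR n a D θ Z x i₀) r S hF2 hF3 lam
          (fun t => form (p t) x) hV hC t (fun s hs hst => hone t ht hsp s hs hst) (f (bl t)) hf1
        have hmt : form (p t) x ≠ 0 := hne t ht hsp
        have hm1 : form (p (f (bl t))) x = c ^ bb (f (bl t)) * form (p (f (bl t))) xt :=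
          kf_form_scale (p (f (bl t))) x c hj
        have hm1' : form (p (f (bl t))) x ≠ 0 := by
          rw [hm1]
          exact mul_ne_zero (pow_ne_zero _ hj) hf2
        have hcc : cc ≠ 0 := by
          intro h
          apply hm1'
          rw [h2, h, zero_mul]
        have hgt' : g t = (form (p t) x)⁻¹ := if_pos hsp
        have hgtt : gt t = (form (p (f (bl t))) xt)⁻¹ := if_pos hsp
        have hftt : ft t = f (bl t) := if_pos hsp
        have hQt : Q t = bb (f (bl t)) + (n (f (bl t)) + 1) := by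
          rw [hQ]
          simp only [if_pos hsp]
          rw [← hdeg, hf1]
        have h3 : g t • colR n a D θ Z x i₀ t - (c ^ Q t)⁻¹ •
            phi c (gt t • colR n a D θ Z xt j₀ (ft t)) =
            (form (p (f (bl t))) x)⁻¹ • ((colR n a D θ Z x i₀ (f (bl t)) -
              (c ^ (n (f (bl t)) + 1))⁻¹ • phi c (colR n a D θ Z xt j₀ (f (bl t)))) - v - w) := by
          have h4 : g t • colR n a D θ Z x i₀ t = (form (p (f (bl t))) x)⁻¹ •
              (colR n a D θ Z x i₀ (f (bl t)) - v - w) := by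
            rw [h1, hgt']
            have h5 : v + w + cc • colR n a D θ Z x i₀ t - v - w =
                cc • colR n a D θ Z x i₀ t := by abel
            rw [h5, smul_smul, h2]
            congr 1
            field_simp
          have h6 : (c ^ Q t)⁻¹ • phi c (gt t • colR n a D θ Z xt j₀ (ft t)) =
              (form (p (f (bl t))) x)⁻¹ • ((c ^ (n (f (bl t)) + 1))⁻¹ •
                phi c (colR n a D θ Z xt j₀ (f (bl t)))) := by
            rw [hgtt, hftt, map_smul, smul_smul, smul_smul, hQt, hm1, pow_add]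
            congr 1
            have h7 : c ^ bb (f (bl t)) ≠ 0 := pow_ne_zero _ hj
            have h8 : c ^ (n (f (bl t)) + 1) ≠ 0 := pow_ne_zero _ hj
            field_simp
          rw [h4, h6, ← smul_sub]
          congr 1
          abel
        rw [h3]
        refine Submodule.smul_mem _ _ (sub_mem (sub_mem ?_ ?_) ?_)
        · exact hX2le _ (by omega) (colR_mem b hb0 hbsp hU i₀ hx j₀ hj (f (bl t)))
        · refine hX2le _ (by omega) ?_
          have h5 : Submodule.span E (Set.range fun o : b => colF n a D θ Z x (o : Option _)) ≤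
              X2 := by
            rw [Submodule.span_le]
            rintro _ ⟨o, rfl⟩
            exact colF_mem b hb0 hU hj o
          exact h5 hv
        · refine (Submodule.span_le.2 ?_ : Submodule.span E
            (colR n a D θ Z x i₀ '' {s | s ∈ S ∧ r s < r t}) ≤ _) hw
          rintro _ ⟨s, ⟨hs1, hs2⟩, rfl⟩
          have h5 := ih (r s) (by rw [← htN]; exact hs2) s hs1 rfl
          have h6 : Submodule.span E ((fun t' => phi c (Kt t')) '' {t' | rkK b S r t' < 2 + r s}) ≤
              Submodule.span E ((fun t' => phi c (Kt t')) '' {t' | rkK b S r t' < 2 + r t}) :=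
            Submodule.span_mono (Set.image_mono fun t' ht' =>
              (show rkK b S r t' < 2 + r s from ht').trans
                (show 2 + r s < 2 + r t from Nat.add_lt_add_left hs2 2))
          have h7 := h6 h5
          have h8 : (c ^ Q s)⁻¹ • phi c (gt s • colR n a D θ Z xt j₀ (ft s)) ∈
              Submodule.span E ((fun t' => phi c (Kt t')) '' {t' | rkK b S r t' < 2 + r t}) := by
            refine Submodule.smul_mem _ _ (Submodule.subset_span ⟨Sum.inr ⟨s, hs1⟩, ?_, rfl⟩)
            change 2 + r s < 2 + r t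
            omega
          have h9 := add_mem h7 h8
          rw [sub_add_cancel] at h9
          have hgs : g s ≠ 0 := by
            rw [hg]
            by_cases hsps : sp (bl s)
            · simp only [if_pos hsps]
              exact inv_ne_zero (hne s hs1 hsps)
            · simp only [if_neg hsps]
              exact one_ne_zero
          have h10 := Submodule.smul_mem _ (g s)⁻¹ h9
          rwa [smul_smul, inv_mul_cancel₀ hgs, one_smul] at h10
      · have hgt' : g t = 1 := if_neg hsp
        have hgtt : gt t = 1 := if_neg hsp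
        have hftt : ft t = t := if_neg hsp
        have hQt : Q t = n t + 1 := if_neg hsp
        rw [hgt', hgtt, hftt, hQt, one_smul, one_smul]
        exact hX2le _ (by omega) (colR_mem b hb0 hbsp hU i₀ hx j₀ hj t)
  rcases t with ⟨o, ho⟩ | ⟨t, ht⟩
  · rcases o with _ | s
    · change eul d Z x - (1 : E) • phi c (eul d Z xt) ∈ _
      rw [one_smul, ← eul_scale d Z x c hj, sub_self]
      exact zero_mem _
    · change syz n a D θ Z x s - c • phi c (syz n a D θ Z xt s) ∈ _
      obtain ⟨bb', hbb⟩ := syz_scale n a D θ Z x hU c hj s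
      rw [hbb, add_sub_cancel_left]
      refine Submodule.smul_mem _ _ ?_
      rw [eul_scale d Z x c hj]
      exact Submodule.subset_span ⟨Sum.inl ⟨none, hb0⟩, Nat.zero_lt_one, rfl⟩
  · exact key (r t) t ht rfl

end

end Pool.Agent.Helper6.CO
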